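import Pool.Agent.Interstr.Facts

/-!
# A countable nonstandard model of true arithmetic
-/

open FirstOrder FirstOrder.Language FirstOrder.Ring Filter

namespace Pool.Interstr

attribute [local instance] natNeg natRing

section Semiring

variable {S : Type} [Add S] [Mul S] [Neg S] [One S] [Zero S] [CompatibleRing S]

lemma eqn (h : TrueArith S) {α : Type} [Finite α] (t s : Language.ring.Term α)
    (hts : ∀ v : α → ℕ, t.realize v = s.realize v) (v : α → S) :
    t.realize v = s.realize v := by
  have := transfer h (t.equal s) (fun v => by rw [Formula.realize_equal]; exact hts v) v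
  rwa [Formula.realize_equal] at this

lemma s_add_assoc (h : TrueArith S) (a b c : S) : a + b + c = a + (b + c) := by
  have := eqn h (Term.var (0 : Fin 3) + Term.var 1 + Term.var 2)
      (Term.var 0 + (Term.var 1 + Term.var 2)) (fun v => by simp; ring) ![a, b, c]
  rw [realize_add, realize_add, realize_add, realize_add] at this
  exact this

lemma s_zero_add (h : TrueArith S) (a : S) : 0 + a = a := by
  have := eqn h (0 + Term.var (0 : Fin 1)) (Term.var 0) (fun v => by simp) ![a]
  rw [realize_add, realize_zero] at this
  exact this

lemma s_add_zero (h : TrueArith S) (a : S) : a + 0 = a := by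
  have := eqn h (Term.var (0 : Fin 1) + 0) (Term.var 0) (fun v => by simp) ![a]
  rw [realize_add, realize_zero] at this
  exact this

lemma s_add_comm (h : TrueArith S) (a b : S) : a + b = b + a := by
  have := eqn h (Term.var (0 : Fin 2) + Term.var 1) (Term.var 1 + Term.var 0)
      (fun v => by simp; ring) ![a, b]
  rw [realize_add, realize_add] at this
  exact this

lemma s_left_distrib (h : TrueArith S) (a b c : S) : a * (b + c) = a * b + a * c := by
  have := eqn h (Term.var (0 : Fin 3) * (Term.var 1 + Term.var 2))
      (Term.var 0 * Term.var 1 + Term.var 0 * Term.var 2) (fun v => by simp; ring) ![a, b, c]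
  rw [realize_mul, realize_add, realize_add, realize_mul, realize_mul] at this
  exact this

lemma s_right_distrib (h : TrueArith S) (a b c : S) : (a + b) * c = a * c + b * c := by
  have := eqn h ((Term.var (0 : Fin 3) + Term.var 1) * Term.var 2)
      (Term.var 0 * Term.var 2 + Term.var 1 * Term.var 2) (fun v => by simp; ring) ![a, b, c]
  rw [realize_mul, realize_add, realize_add, realize_mul, realize_mul] at this
  exact this

lemma s_zero_mul (h : TrueArith S) (a : S) : 0 * a = 0 := by
  have := eqn h (0 * Term.var (0 : Fin 1)) 0 (fun v => by simp) ![a]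
  rw [realize_mul, realize_zero] at this
  exact this

lemma s_mul_zero (h : TrueArith S) (a : S) : a * 0 = 0 := by
  have := eqn h (Term.var (0 : Fin 1) * 0) 0 (fun v => by simp) ![a]
  rw [realize_mul, realize_zero] at this
  exact this

lemma s_mul_assoc (h : TrueArith S) (a b c : S) : a * b * c = a * (b * c) := by
  have := eqn h (Term.var (0 : Fin 3) * Term.var 1 * Term.var 2)
      (Term.var 0 * (Term.var 1 * Term.var 2)) (fun v => by simp; ring) ![a, b, c]
  rw [realize_mul, realize_mul, realize_mul, realize_mul] at this
  exact this

lemma s_one_mul (h : TrueArith S) (a : S) : 1 * a = a := by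
  have := eqn h (1 * Term.var (0 : Fin 1)) (Term.var 0) (fun v => by simp) ![a]
  rw [realize_mul, realize_one] at this
  exact this

lemma s_mul_one (h : TrueArith S) (a : S) : a * 1 = a := by
  have := eqn h (Term.var (0 : Fin 1) * 1) (Term.var 0) (fun v => by simp) ![a]
  rw [realize_mul, realize_one] at this
  exact this

lemma s_mul_comm (h : TrueArith S) (a b : S) : a * b = b * a := by
  have := eqn h (Term.var (0 : Fin 2) * Term.var 1) (Term.var 1 * Term.var 0)
      (fun v => by simp; ring) ![a, b]
  rw [realize_mul, realize_mul] at this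
  exact this

/-- A model of true arithmetic is a commutative semiring. -/
@[reducible] def semiringOf (h : TrueArith S) : CommSemiring S where
  nsmul := nsmulRec
  add_assoc := s_add_assoc h
  zero_add := s_zero_add h
  add_zero := s_add_zero h
  add_comm := s_add_comm h
  left_distrib := s_left_distrib h
  right_distrib := s_right_distrib h
  zero_mul := s_zero_mul h
  mul_zero := s_mul_zero h
  mul_assoc := s_mul_assoc h
  one_mul := s_one_mul h
  mul_one := s_mul_one h
  mul_comm := s_mul_comm h

end Semiring

/-- The numeral `n` as a closed term. -/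
def numT : ℕ → Language.ring.Term Empty
  | 0 => 0
  | n + 1 => numT n + 1

lemma realize_numT {A : Type} [CommSemiring A] [Neg A] [CompatibleRing A] (v : Empty → A) (n : ℕ) :
    (numT n).realize v = (n : A) := by
  induction n with
  | zero => simp [numT]
  | succ n ih => simp [numT, ih]

/-- The ultrapower of `ℕ`. -/
abbrev UP : Type := ((hyperfilter ℕ : Ultrafilter ℕ) : Filter ℕ).Product (fun _ : ℕ => ℕ)

/-- The class of a sequence. -/
noncomputable def cls (g : ℕ → ℕ) : UP := (g : ((hyperfilter ℕ : Ultrafilter ℕ) : Filter ℕ).Product
  (fun _ : ℕ => ℕ))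

lemma cls_eq (g g' : ℕ → ℕ) : cls g = cls g' ↔ ∀ᶠ n in (hyperfilter ℕ : Filter ℕ), g n = g' n :=
  Quotient.eq (r := ((hyperfilter ℕ : Ultrafilter ℕ) : Filter ℕ).productSetoid (fun _ : ℕ => ℕ))

instance : Infinite UP := by
  refine Infinite.of_injective (fun n : ℕ => cls (fun _ => n)) (fun a b hab => ?_)
  have := (cls_eq _ _).mp hab
  simpa using this

lemma trueArith_UP : TrueArith UP := by
  intro σ hσ
  exact (Ultraproduct.sentence_realize σ).mpr (Eventually.of_forall fun _ => hσ)

theorem exists_model : ∃ (M : Type) (_ : CommSemiring M) (_ : Neg M) (_ : CompatibleRing M),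
    Countable M ∧ TrueArith M ∧ ∃ a : M, ∀ n : ℕ, (n : M) ≠ a := by
  obtain ⟨S, hS1, hS2⟩ := exists_elementarySubstructure_card_eq Language.ring
    ({cls (fun n => n)} : Set UP) Cardinal.aleph0.{0} le_rfl (by simp) (by simp)
    (by simp)
  have hS : TrueArith S := fun σ hσ => (S.realize_sentence σ).mpr (trueArith_UP σ hσ)
  let := addOfRingStructure S
  let := mulOfRingStructure S
  let := negOfRingStructure S
  let := oneOfRingStructure S
  let := zeroOfRingStructure S
  let : CompatibleRing S := compatibleRingOfRingStructure S
  let : CommSemiring S := semiringOf hS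
  refine ⟨S, inferInstance, inferInstance, inferInstance, ?_, hS, ?_⟩
  · rw [← Cardinal.mk_le_aleph0_iff]
    simpa using hS2.le
  · refine ⟨⟨cls (fun n => n), hS1 rfl⟩, fun n hn => ?_⟩
    have h1 : (numT n).realize (fun i : Empty => (i.elim : S)) = (n : S) := realize_numT _ n
    have h2 := HomClass.realize_term S.subtype (t := numT n) (v := fun i : Empty => (i.elim : S))
    rw [h1, hn] at h2
    have h3 := Ultraproduct.term_realize_cast (u := hyperfilter ℕ) (M := fun _ : ℕ => ℕ)
      (fun i : Empty => (i.elim : ℕ → ℕ)) (numT n)
    have h4 : cls (fun n => n) = cls (fun _ => n) := by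
      have h5 : (S.subtype ∘ fun i : Empty => (i.elim : S)) = fun i : Empty =>
          ((i.elim : ℕ → ℕ) : UP) := by
        funext i
        exact i.elim
      rw [h5] at h2
      have h6 : cls (fun n => n) = cls (fun a => (numT n).realize
          (fun i : Empty => (i.elim : ℕ → ℕ) a)) := h2.symm.trans h3
      rw [h6]
      congr 1
      funext a
      rw [realize_numT]
      simp
    rw [cls_eq] at h4
    have h5 : {k : ℕ | k = n} ∈ (hyperfilter ℕ : Filter ℕ) := h4
    exact notMem_hyperfilter_of_finite (Set.finite_singleton n) h5

end Pool.Interstr
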