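import Mathlib

/-!
# The pentagon lattice
-/

namespace Pool.Interstr

/-- The pentagon: `bot < a < b < top` and `c` incomparable to `a` and `b`. -/
inductive N5 : Type
  | bot | a | b | c | top
  deriving DecidableEq

namespace N5

instance : Fintype N5 := ⟨{bot, a, b, c, top}, by intro x; cases x <;> decide⟩

/-- Join. -/
def sup : N5 → N5 → N5
  | bot, x => x
  | x, bot => x
  | a, a => a
  | a, b => b
  | b, a => b
  | b, b => b
  | c, c => c
  | _, _ => top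

/-- Meet. -/
def inf : N5 → N5 → N5
  | top, x => x
  | x, top => x
  | a, a => a
  | a, b => a
  | b, a => a
  | b, b => b
  | c, c => c
  | _, _ => bot

instance : Max N5 := ⟨sup⟩
instance : Min N5 := ⟨inf⟩

instance : Lattice N5 :=
  Lattice.mk' (by decide) (by decide) (by decide) (by decide) (by decide) (by decide)

lemma le_iff (x y : N5) : x ≤ y ↔ sup x y = y := sup_eq_right.symm

instance : DecidableLE N5 := fun x y => decidable_of_iff _ (le_iff x y).symm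

instance : BoundedOrder N5 where
  top := top
  bot := bot
  le_top := by
    intro x
    rw [le_iff]
    cases x <;> rfl
  bot_le := by
    intro x
    rw [le_iff]
    cases x <;> rfl

/-- The chain `{b, 1}`. -/
def C : Set N5 := {x | x = b ∨ x = top}

instance : DecidablePred (· ∈ C) := fun x => inferInstanceAs (Decidable (x = b ∨ x = top))

lemma chain : IsChain (· ≤ ·) C := by
  rintro x (rfl | rfl) y (rfl | rfl) h
  · exact absurd rfl h
  · left; decide
  · right; decide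
  · exact absurd rfl h

lemma top_mem : (⊤ : N5) ∈ C := Or.inr rfl

lemma condA : ∀ x y d : N5,
    (d ∈ C ∧ x ≤ d ∧ ∀ c' ∈ C, x ≤ c' → d ≤ c') →
    (d ∈ C ∧ y ≤ d ∧ ∀ c' ∈ C, y ≤ c' → d ≤ c') →
    (d ∈ C ∧ x ⊓ y ≤ d ∧ ∀ c' ∈ C, x ⊓ y ≤ c' → d ≤ c') := by
  have h : ∀ x y d : N5,
    ((d = b ∨ d = top) ∧ x ≤ d ∧ ∀ c' : N5, (c' = b ∨ c' = top) → x ≤ c' → d ≤ c') →
    ((d = b ∨ d = top) ∧ y ≤ d ∧ ∀ c' : N5, (c' = b ∨ c' = top) → y ≤ c' → d ≤ c') →
    ((d = b ∨ d = top) ∧ x ⊓ y ≤ d ∧ ∀ c' : N5, (c' = b ∨ c' = top) → x ⊓ y ≤ c' → d ≤ c') := by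
    decide
  exact h

lemma condB : ∀ w x y z : N5, x ⊔ w = z → y ⊔ w = z → x ⊓ w = y ⊓ w →
    (∃ d : N5, (d ∈ C ∧ w ≤ d ∧ ∀ c' ∈ C, w ≤ c' → d ≤ c') ∧ w = d ⊓ z) → x = y := by
  decide

end N5

end Pool.Interstr
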