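import Pool.Agent.Interstr.Main
import Pool.Agent.Interstr.Model
import Pool.Agent.Interstr.N5

/-!
# No extension of a model of true arithmetic realises the ranked pentagon
-/

open FirstOrder FirstOrder.Language FirstOrder.Ring

namespace Pool.Interstr

attribute [local instance] natNeg natRing

variable {M N : Type} [CommSemiring M] [Neg M] [CompatibleRing M] [CommSemiring N] [Neg N]
  [CompatibleRing N]

lemma mem_toElem {A : Set N} (hA : Language.ring.MeetsDefinable A) (z : N) :
    z ∈ hA.toElementarySubstructure ↔ z ∈ A := by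
  have := hA.closure_eq_self
  rw [← SetLike.mem_coe]
  change z ∈ (Substructure.closure Language.ring A : Set N) ↔ _
  exact Set.ext_iff.mp this z

omit [CommSemiring M] [Neg M] [CompatibleRing M] [CommSemiring N] [Neg N]
  [CompatibleRing N] in
lemma range_meets [Language.ring.Structure M] [Language.ring.Structure N]
    (f : M ↪ₑ[Language.ring] N) : Language.ring.MeetsDefinable (Set.range f) := by
  intro D hD h
  obtain ⟨A0, φ, hA0, hφ⟩ := exists_formula_of_definable _ D h
  obtain ⟨x0, hx0⟩ := hD
  choose g hg using (fun a : A0 => hA0 a.2)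
  have h1 : (φ.iExs (Fin 1)).Realize (f ∘ g) := by
    rw [Formula.realize_iExs]
    refine ⟨fun _ => x0, ?_⟩
    have : f ∘ g = fun a : A0 => (a : N) := by
      funext a
      exact hg a
    rw [this]
    exact (hφ x0).mpr hx0
  rw [f.map_formula, Formula.realize_iExs, exists_fin_one] at h1
  obtain ⟨x, hx⟩ := h1
  rw [← f.map_formula] at hx
  refine ⟨f x, (hφ (f x)).mp ?_, x, rfl⟩
  have : (f ∘ Sum.elim g (fun _ => x) : A0 ⊕ Fin 1 → N)
      = Sum.elim (fun a : A0 => (a : N)) (fun _ => f x) := by
    funext i
    rcases i with i | i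
    · exact hg i
    · rfl
  rw [← this]
  exact hx

lemma inter_meets (hN : TrueArith N) (K L : Language.ring.ElementarySubstructure N) :
    Language.ring.MeetsDefinable ((K : Set N) ∩ (L : Set N)) := by
  have h := dclo_meets hN ((K : Set N) ∩ (L : Set N))
  have h1 : dclo ((K : Set N) ∩ (L : Set N)) = (K : Set N) ∩ (L : Set N) := by
    apply Set.Subset.antisymm
    · intro z hz
      rw [dclo, Set.mem_ofPred_eq] at hz
      constructor
      · obtain ⟨x, hx, hxK⟩ := K.meetsDefinable {z} (Set.singleton_nonempty z)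
          (Set.Definable.mono hz Set.inter_subset_left)
        rw [Set.mem_singleton_iff] at hx
        rw [← hx]
        exact hxK
      · obtain ⟨x, hx, hxK⟩ := L.meetsDefinable {z} (Set.singleton_nonempty z)
          (Set.Definable.mono hz Set.inter_subset_right)
        rw [Set.mem_singleton_iff] at hx
        rw [← hx]
        exact hxK
    · exact subset_dclo _
  rwa [h1] at h

theorem no_pentagon (hM : TrueArith M) (f : M ↪ₑ[Language.ring] N)
    (e : N5 ≃o {K : Language.ring.ElementarySubstructure N // Set.range f ⊆ (K : Set N)})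
    (h : ∀ l : N5, l ∈ N5.C ↔
      ∀ x ∈ (e l).1, ∀ y : N, y ∉ (e l).1 → ∃ z : N, x + z + 1 = y) : False := by
  have hN := trueArith_of_embedding hM f
  have hle : ∀ {l l' : N5}, l ≤ l' → (e l).1 ≤ (e l').1 := fun hl => e.monotone hl
  have key := pentagon hM f (e .a).1 (e .b).1 (e .c).1 (e .a).2 (e .b).2 (e .c).2
    (hle (by decide)) ?_ ?_ ?_ ?_
  · have h1 : e N5.b ≤ e N5.a := key
    rw [e.le_iff_le] at h1
    exact absurd h1 (by decide)
  · -- `M` is cofinal in `b`
    intro y hy
    let K := (cofc_meets hM f).toElementarySubstructure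
    have hK : ∀ z, z ∈ K ↔ z ∈ cofc f := mem_toElem (cofc_meets hM f)
    have hfK : Set.range f ⊆ (K : Set N) := by
      rintro _ ⟨m, rfl⟩
      rw [SetLike.mem_coe, hK]
      exact ⟨m, le_refl' _⟩
    have hl := (h (e.symm ⟨K, hfK⟩)).mpr (by
      rw [e.apply_symm_apply]
      intro x hx y hy
      change x ∈ K at hx
      change y ∉ K at hy
      rw [hK] at hx hy
      rcases lt_or_le hN x y with h1 | h1
      · exact h1
      · exfalso
        obtain ⟨m, hm⟩ := hx
        exact hy ⟨m, le_trans' h1 hm⟩)
    have hbl : N5.b ≤ e.symm ⟨K, hfK⟩ := by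
      rcases hl with h1 | h1
      · rw [h1]
      · rw [h1]; decide
    have h1 : e N5.b ≤ ⟨K, hfK⟩ := by
      have := e.monotone hbl
      rwa [e.apply_symm_apply] at this
    have h2 : y ∈ K := h1 hy
    rw [hK] at h2
    exact h2
  · exact (h N5.b).mp (Or.inl rfl)
  · -- `b ∩ c = M`
    intro x hxb hxc
    let K := (inter_meets hN (e .b).1 (e .c).1).toElementarySubstructure
    have hK : ∀ z, z ∈ K ↔ z ∈ (((e .b).1 : Set N) ∩ ((e .c).1 : Set N)) :=
      mem_toElem (inter_meets hN (e .b).1 (e .c).1)
    have hfK : Set.range f ⊆ (K : Set N) := by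
      intro z hz
      rw [SetLike.mem_coe, hK]
      exact ⟨(e .b).2 hz, (e .c).2 hz⟩
    let R := (range_meets f).toElementarySubstructure
    have hR : ∀ z, z ∈ R ↔ z ∈ Set.range f := mem_toElem (range_meets f)
    have hfR : Set.range f ⊆ (R : Set N) := by
      intro z hz
      rw [SetLike.mem_coe, hR]
      exact hz
    have h1 : e.symm ⟨K, hfK⟩ ≤ N5.b ⊓ N5.c := by
      apply le_inf
      · rw [← e.le_iff_le, e.apply_symm_apply]
        intro z hz
        change z ∈ K at hz
        rw [hK] at hz
        exact hz.1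
      · rw [← e.le_iff_le, e.apply_symm_apply]
        intro z hz
        change z ∈ K at hz
        rw [hK] at hz
        exact hz.2
    have h2 : N5.b ⊓ N5.c ≤ e.symm ⟨R, hfR⟩ := (show N5.b ⊓ N5.c = ⊥ from rfl) ▸ bot_le
    have h3 : e.symm ⟨K, hfK⟩ ≤ e.symm ⟨R, hfR⟩ := h1.trans h2
    rw [e.symm.le_iff_le] at h3
    have h4 : x ∈ K := by
      rw [hK]
      exact ⟨hxb, hxc⟩
    have h5 : x ∈ R := h3 h4
    rwa [hR] at h5
  · intro K haK hcK y
    have hfK : Set.range f ⊆ (K : Set N) := fun z hz => haK ((e .a).2 hz)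
    have h1 : N5.a ⊔ N5.c ≤ e.symm ⟨K, hfK⟩ := by
      apply sup_le
      · rw [← e.le_iff_le, e.apply_symm_apply]
        exact haK
      · rw [← e.le_iff_le, e.apply_symm_apply]
        exact hcK
    have h2 : e.symm ⟨⊤, fun z _ => ElementarySubstructure.mem_top z⟩ ≤ N5.a ⊔ N5.c :=
      (show N5.a ⊔ N5.c = ⊤ from rfl) ▸ le_top
    have h3 := h2.trans h1
    rw [e.symm.le_iff_le] at h3
    exact h3 (ElementarySubstructure.mem_top y)

/-- Basic facts on models of true arithmetic. -/
lemma succ_ne_zero' (hM : TrueArith M) (x : M) : x + 1 ≠ 0 := by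
  have := transfer hM (Term.equal ((Term.var (0 : Fin 1) : Language.ring.Term (Fin 1)) + 1) 0).not
    (fun v => by
    rw [Formula.realize_not, Formula.realize_equal]
    simp) ![x]
  rw [Formula.realize_not, Formula.realize_equal] at this
  simpa using this

lemma succ_inj' (hM : TrueArith M) (x y : M) (h : x + 1 = y + 1) : x = y := by
  have := transfer hM ((Term.equal ((Term.var (0 : Fin 2) : Language.ring.Term (Fin 2)) + 1)
    (Term.var 1 + 1)).imp ((Term.var 0).equal (Term.var 1))) (fun v => by
    rw [Formula.realize_imp, Formula.realize_equal, Formula.realize_equal]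
    simp) ![x, y]
  rw [Formula.realize_imp, Formula.realize_equal, Formula.realize_equal] at this
  simpa using this (by simpa using h)

lemma neg_eq' (hM : TrueArith M) (x : M) : -x = x := by
  have := eq_of_nat hM (-(Term.var (0 : Fin 1))) (Term.var 0) (fun v => by
    rw [realize_neg]
    rfl) ![x]
  simpa using this

end Pool.Interstr
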