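import Mathlib

/-!
# Formulas of arithmetic in the language of rings, and transfer of true sentences
-/

open FirstOrder FirstOrder.Language FirstOrder.Ring

namespace Pool.Interstr



/-- In the language of rings `ℕ` gets the identity as its negation. -/
@[reducible] def natNeg : Neg ℕ := ⟨id⟩

attribute [local instance] natNeg

/-- `ℕ` as a structure for the language of rings. -/
@[reducible] def natRing : CompatibleRing ℕ := compatibleRingOfRing ℕ

attribute [local instance] natRing

section Formulas

variable {α β : Type*}

/-- `t ≤ s` -/
noncomputable def leF (t s : Language.ring.Term α) : Language.ring.Formula α :=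
  Formula.iExs (Fin 1)
    ((t.relabel Sum.inl + Term.var (Sum.inr (0 : Fin 1))).equal (s.relabel Sum.inl))

/-- `t < s` -/
noncomputable def ltF (t s : Language.ring.Term α) : Language.ring.Formula α :=
  Formula.iExs (Fin 1)
    ((t.relabel Sum.inl + Term.var (Sum.inr (0 : Fin 1)) + 1).equal (s.relabel Sum.inl))

/-- `t ∣ s` -/
noncomputable def dvdF (t s : Language.ring.Term α) : Language.ring.Formula α :=
  Formula.iExs (Fin 1)
    ((t.relabel Sum.inl * Term.var (Sum.inr (0 : Fin 1))).equal (s.relabel Sum.inl))

variable {A : Type*} [CommSemiring A] [Neg A] [CompatibleRing A]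

omit [CommSemiring A] [Neg A] [CompatibleRing A] in
lemma exists_fin_one {p : (Fin 1 → A) → Prop} : (∃ z, p z) ↔ ∃ z : A, p (fun _ => z) := by
  constructor
  · rintro ⟨z, hz⟩
    refine ⟨z 0, ?_⟩
    have : (fun _ => z 0) = z := by
      funext i
      rw [Subsingleton.elim i 0]
    rwa [this]
  · rintro ⟨z, hz⟩
    exact ⟨_, hz⟩

omit [CommSemiring A] [Neg A] [CompatibleRing A] in
lemma forall_fin_one {p : (Fin 1 → A) → Prop} : (∀ z, p z) ↔ ∀ z : A, p (fun _ => z) := by
  constructor
  · intro h z
    exact h _
  · intro h z
    have : (fun _ => z 0) = z := by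
      funext i
      rw [Subsingleton.elim i 0]
    rw [← this]
    exact h _

lemma realize_leF (t s : Language.ring.Term α) (v : α → A) :
    (leF t s).Realize v ↔ ∃ z, t.realize v + z = s.realize v := by
  simp [leF, exists_fin_one, Formula.realize_equal, Function.comp_def]

lemma realize_ltF (t s : Language.ring.Term α) (v : α → A) :
    (ltF t s).Realize v ↔ ∃ z, t.realize v + z + 1 = s.realize v := by
  simp [ltF, exists_fin_one, Formula.realize_equal, Function.comp_def]

lemma realize_dvdF (t s : Language.ring.Term α) (v : α → A) :
    (dvdF t s).Realize v ↔ ∃ z, t.realize v * z = s.realize v := by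
  simp [dvdF, exists_fin_one, Formula.realize_equal, Function.comp_def]

end Formulas

/-- All sentences true in `ℕ` hold in `A`. -/
def TrueArith (A : Type) [Language.ring.Structure A] : Prop :=
  ∀ σ : Language.ring.Sentence, σ.Realize ℕ → σ.Realize A

section Transfer

variable {A : Type} [Language.ring.Structure A]

lemma transfer (hA : TrueArith A) {α : Type} [Finite α] (φ : Language.ring.Formula α)
    (h : ∀ v : α → ℕ, φ.Realize v) (v : α → A) : φ.Realize v := by
  have h1 := hA ((φ.relabel (Sum.inr : α → Empty ⊕ α)).iAlls α) (by
    rw [Sentence.Realize, Formula.realize_iAlls]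
    intro w
    rw [Formula.realize_relabel]
    exact h _)
  rw [Sentence.Realize, Formula.realize_iAlls] at h1
  have h2 := h1 v
  rw [Formula.realize_relabel] at h2
  simpa using h2

lemma transfer_ex (hA : TrueArith A) {α β : Type} [Finite α] [Finite β]
    (φ : Language.ring.Formula (α ⊕ β))
    (h : ∀ v : α → ℕ, ∃ w : β → ℕ, φ.Realize (Sum.elim v w)) (v : α → A) :
    ∃ w : β → A, φ.Realize (Sum.elim v w) := by
  have := transfer hA (φ.iExs β) (by
    intro v
    rw [Formula.realize_iExs]
    exact h v) v
  rwa [Formula.realize_iExs] at this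

end Transfer

end Pool.Interstr
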