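import Pool.Agent.Interstr.Facts

/-!
# Collection and product coding of bounded definable relations
-/

open FirstOrder FirstOrder.Language FirstOrder.Ring

namespace Pool.Interstr

attribute [local instance] natNeg natRing

/-! ## Collection -/

/-- The collection formula: `∀ w ≤ m, (∃ x, φ(w, x)) → ∃ x ≤ B, φ(w, x)`;
the variables are `inl 0 = m`, `inr 0 = B`. -/
noncomputable def collF {α : Type} [Finite α] (φ : Language.ring.Formula (α ⊕ Fin 1)) :
    Language.ring.Formula (Fin 1 ⊕ Fin 1) :=
  Formula.iAlls α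
    ((Formula.iInf (fun i : α => leF (Term.var (Sum.inr i)) (Term.var (Sum.inl (Sum.inl 0)))) :
      Language.ring.Formula ((Fin 1 ⊕ Fin 1) ⊕ α)).imp
      ((Formula.iExs (Fin 1) (φ.relabel (Sum.map Sum.inr id) :
          Language.ring.Formula (((Fin 1 ⊕ Fin 1) ⊕ α) ⊕ Fin 1))).imp
        (Formula.iExs (Fin 1) (leF (Term.var (Sum.inr 0)) (Term.var (Sum.inl (Sum.inl (Sum.inr 0))))
          ⊓ (φ.relabel (Sum.map Sum.inr id) :
            Language.ring.Formula (((Fin 1 ⊕ Fin 1) ⊕ α) ⊕ Fin 1))))))

lemma elim_map_inr {γ α B : Type*} (u : γ → B) (w : α → B) (z : B) :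
    (Sum.elim (Sum.elim u w) (fun _ : Fin 1 => z)) ∘
      (Sum.map Sum.inr id : α ⊕ Fin 1 → (γ ⊕ α) ⊕ Fin 1) = Sum.elim w (fun _ => z) := by
  funext i
  rcases i with i | i <;> simp

lemma realize_collF {A : Type} [CommSemiring A] [Neg A] [CompatibleRing A] {α : Type} [Finite α]
    (φ : Language.ring.Formula (α ⊕ Fin 1)) (m B : A) :
    (collF φ).Realize (Sum.elim (fun _ => m) (fun _ => B)) ↔
      ∀ w : α → A, (∀ i, Le (w i) m) → (∃ x, φ.Realize (Sum.elim w (fun _ => x))) →
        ∃ x, Le x B ∧ φ.Realize (Sum.elim w (fun _ => x)) := by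
  rw [collF, Formula.realize_iAlls]
  refine forall_congr' fun w => ?_
  rw [Formula.realize_imp, Formula.realize_imp, Formula.realize_iInf, Formula.realize_iExs,
    Formula.realize_iExs, exists_fin_one, exists_fin_one]
  refine imp_congr ?_ (imp_congr ?_ ?_)
  · refine forall_congr' fun i => ?_
    rw [realize_le]
    simp
  · refine exists_congr fun x => ?_
    rw [Formula.realize_relabel]
    exact iff_of_eq (congrArg _ (elim_map_inr _ w x))
  · refine exists_congr fun x => ?_
    rw [Formula.realize_inf, Formula.realize_relabel, realize_le]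
    refine and_congr ?_ (iff_of_eq (congrArg _ (elim_map_inr _ w x)))
    simp

lemma nat_coll {α : Type} [Finite α] (φ : Language.ring.Formula (α ⊕ Fin 1)) (m : ℕ) :
    ∃ B : ℕ, ∀ w : α → ℕ, (∀ i, w i ≤ m) → (∃ x, φ.Realize (Sum.elim w (fun _ => x))) →
        ∃ x, x ≤ B ∧ φ.Realize (Sum.elim w (fun _ => x)) := by
  classical
  have := Fintype.ofFinite α
  let g : (α → ℕ) → ℕ := fun w =>
    if h : ∃ x, φ.Realize (Sum.elim w (fun _ => x)) then Nat.find h else 0
  refine ⟨(Fintype.piFinset (fun _ : α => Finset.range (m + 1))).sup g, fun w hw h => ?_⟩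
  refine ⟨Nat.find h, ?_, Nat.find_spec h⟩
  have h1 : g w ≤ (Fintype.piFinset (fun _ : α => Finset.range (m + 1))).sup g := by
    apply Finset.le_sup (f := g)
    rw [Fintype.mem_piFinset]
    intro i
    rw [Finset.mem_range]
    have := hw i
    omega
  have h2 : g w = Nat.find h := by
    simp only [g]
    rw [dif_pos h]
  rwa [h2] at h1

/-! ## Indices of tuples -/

/-- A number attached to a list of numbers. -/
def idxV {A : Type} [CommSemiring A] : List A → A
  | [] => 0
  | a :: l => (a + idxV l) * (a + idxV l) + a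

/-- The corresponding term. -/
def idxT {α : Type} : List (Language.ring.Term α) → Language.ring.Term α
  | [] => 0
  | a :: l => (a + idxT l) * (a + idxT l) + a

lemma realize_idxT {A : Type} [CommSemiring A] [Neg A] [CompatibleRing A] {α : Type} (v : α → A)
    (l : List (Language.ring.Term α)) :
    (idxT l).realize v = idxV (l.map (Term.realize v)) := by
  induction l with
  | nil => simp [idxT, idxV]
  | cons a l ih => simp [idxT, idxV, ih]

lemma pair_inj {a b c d : ℕ} (h : (a + b) * (a + b) + a = (c + d) * (c + d) + c) :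
    a = c ∧ b = d := by
  have h1 : a + b = c + d := by
    rcases lt_trichotomy (a + b) (c + d) with h2 | h2 | h2
    · exfalso
      have : (a + b + 1) * (a + b + 1) ≤ (c + d) * (c + d) := Nat.mul_self_le_mul_self h2
      nlinarith
    · exact h2
    · exfalso
      have : (c + d + 1) * (c + d + 1) ≤ (a + b) * (a + b) := Nat.mul_self_le_mul_self h2
      nlinarith
  rw [h1] at h
  omega

lemma idxV_inj : ∀ l l' : List ℕ, l.length = l'.length → idxV l = idxV l' → l = l' := by
  intro l
  induction l with
  | nil =>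
    intro l' h _
    cases l' with
    | nil => rfl
    | cons _ _ => simp at h
  | cons a l ih =>
    intro l' h h'
    cases l' with
    | nil => simp at h
    | cons b l' =>
      obtain ⟨h1, h2⟩ := pair_inj h'
      rw [h1, ih l' (by simpa using h) h2]

/-- The index of a tuple. -/
noncomputable def cod {A : Type} [CommSemiring A] {κ : Type} [Fintype κ] (w : κ → A) : A :=
  idxV ((Finset.univ : Finset κ).toList.map w)

lemma cod_inj {κ : Type} [Fintype κ] {w w' : κ → ℕ} (h : cod w = cod w') : w = w' := by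
  have h1 := idxV_inj _ _ (by simp) h
  funext i
  have := (List.map_inj_left.mp h1) i (by simp)
  exact this

/-- The index of a tuple, as a term. -/
noncomputable def codT {α κ : Type} [Fintype κ] (t : κ → Language.ring.Term α) :
    Language.ring.Term α :=
  idxT ((Finset.univ : Finset κ).toList.map t)

lemma realize_codT {A : Type} [CommSemiring A] [Neg A] [CompatibleRing A] {α κ : Type} [Fintype κ]
    (t : κ → Language.ring.Term α) (v : α → A) :
    (codT t).realize v = cod (fun i => (t i).realize v) := by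
  rw [codT, realize_idxT, cod, List.map_map]
  rfl

/-! ## Product coding in `ℕ` -/

lemma coprime_aux {I i j : ℕ} (hi : i ≤ I) (hj : j ≤ I) (hij : i ≠ j) :
    Nat.Coprime (1 + (i + 1) * (I + 1).factorial) (1 + (j + 1) * (I + 1).factorial) := by
  apply Nat.coprime_of_dvd
  intro p hp h1 h2
  have key : p ∣ (I + 1).factorial := by
    have h3 : (p : ℤ) ∣ ((i : ℤ) - j) * (I + 1).factorial := by
      have h1' : (p : ℤ) ∣ 1 + (i + 1) * (I + 1).factorial := by exact_mod_cast h1
      have h2' : (p : ℤ) ∣ 1 + (j + 1) * (I + 1).factorial := by exact_mod_cast h2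
      have h3' := dvd_sub h1' h2'
      have h4' : (1 + ((i : ℤ) + 1) * ((I + 1).factorial : ℤ)) - (1 + ((j : ℤ) + 1) *
          ((I + 1).factorial : ℤ)) = ((i : ℤ) - j) * ((I + 1).factorial : ℤ) := by ring
      rw [← h4']
      exact h3'
    rcases (Nat.prime_iff_prime_int.mp hp).dvd_or_dvd h3 with h4 | h4
    · have h5 : p ∣ ((i : ℤ) - j).natAbs := Int.natCast_dvd.mp h4
      have h6 : ((i : ℤ) - j).natAbs ≤ I := by omega
      have h7 : 0 < ((i : ℤ) - j).natAbs := by omega
      exact (Nat.dvd_factorial hp.pos ((Nat.le_of_dvd h7 h5).trans (by omega)))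
    · exact_mod_cast h4
  have h3 : p ∣ 1 := by
    have h4 : p ∣ (i + 1) * (I + 1).factorial := Dvd.dvd.mul_left key _
    exact (Nat.dvd_add_left h4).mp h1
  exact hp.one_lt.ne' (Nat.dvd_one.mp h3)

lemma nat_code {κ : Type} [Fintype κ] (m : ℕ) :
    ∃ q B : ℕ, ∀ P : (κ → ℕ) → Prop, ∃ s ≤ B, ∀ w : κ → ℕ, (∀ i, w i ≤ m) →
      ((1 + (cod w + 1) * q) ∣ s ↔ P w) := by
  classical
  let W : Finset (κ → ℕ) := Fintype.piFinset (fun _ : κ => Finset.range (m + 1))
  let I : ℕ := W.sup cod
  let e : (κ → ℕ) → ℕ := fun w => 1 + (cod w + 1) * (I + 1).factorial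
  refine ⟨(I + 1).factorial, ∏ w ∈ W, e w, fun P => ?_⟩
  refine ⟨∏ w ∈ W.filter P, e w, ?_, fun w hw => ?_⟩
  · exact Finset.prod_le_prod_of_subset_of_one_le' (Finset.filter_subset _ _)
      (fun i _ _ => by simp [e])
  · have hwW : w ∈ W := by
      rw [Fintype.mem_piFinset]
      intro i
      rw [Finset.mem_range]
      have := hw i
      omega
    have hI : ∀ w ∈ W, cod w ≤ I := fun w hw => Finset.le_sup (f := cod) hw
    constructor
    · intro h
      by_contra hP
      have hc : Nat.Coprime (e w) (∏ w ∈ W.filter P, e w) := by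
        apply Nat.Coprime.prod_right
        intro w' hw'
        rw [Finset.mem_filter] at hw'
        apply coprime_aux (hI w hwW) (hI w' hw'.1)
        intro hcod
        rw [cod_inj hcod] at hP
        exact hP hw'.2
      have h1 : e w = 1 := Nat.Coprime.eq_one_of_dvd hc h
      have h2 : 0 < (I + 1).factorial := Nat.factorial_pos _
      simp only [e] at h1
      have h3 : (cod w + 1) * (I + 1).factorial = 0 := by omega
      rcases Nat.mul_eq_zero.mp h3 with h4 | h4 <;> omega
    · intro hP
      exact Finset.dvd_prod_of_mem e (Finset.mem_filter.mpr ⟨hwW, hP⟩)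

/-! ## The coding formula -/

/-- `s ≤ B` and for all `w ≤ m`: `(1 + (cod w + 1) q) ∣ s ↔ φ(u, w)`. The variables are
`u` on the left, and `0, 1, 2, 3 = m, q, B, s` on the right. -/
noncomputable def codeF {π κ : Type} [Fintype κ] (φ : Language.ring.Formula (π ⊕ κ)) :
    Language.ring.Formula (π ⊕ Fin 4) :=
  leF (Term.var (Sum.inr 3)) (Term.var (Sum.inr 2)) ⊓
    Formula.iAlls κ
      ((Formula.iInf (fun i : κ => leF (Term.var (Sum.inr i)) (Term.var (Sum.inl (Sum.inr 0)))) :
          Language.ring.Formula ((π ⊕ Fin 4) ⊕ κ)).imp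
        ((dvdF (1 + (codT (fun i : κ => Term.var (Sum.inr i)) + 1) *
            Term.var (Sum.inl (Sum.inr 1))) (Term.var (Sum.inl (Sum.inr 3)))).iff
          (φ.relabel (Sum.map Sum.inl id))))

/-- Divisibility in a model. -/
def Dvd' {A : Type} [CommSemiring A] (a b : A) : Prop := ∃ z, a * z = b

lemma realize_codeF {A : Type} [CommSemiring A] [Neg A] [CompatibleRing A] {π κ : Type} [Fintype κ]
    (φ : Language.ring.Formula (π ⊕ κ)) (u : π → A) (p : Fin 4 → A) :
    (codeF φ).Realize (Sum.elim u p) ↔
      Le (p 3) (p 2) ∧ ∀ w : κ → A, (∀ i, Le (w i) (p 0)) →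
        (Dvd' (1 + (cod w + 1) * p 1) (p 3) ↔ φ.Realize (Sum.elim u w)) := by
  rw [codeF, Formula.realize_inf, Formula.realize_iAlls, realize_le]
  refine and_congr (by simp) (forall_congr' fun w => ?_)
  rw [Formula.realize_imp, Formula.realize_iInf, Formula.realize_iff, Formula.realize_relabel,
    realize_dvdF]
  refine imp_congr (forall_congr' fun i => ?_) (iff_congr ?_ (iff_of_eq (congrArg _ ?_)))
  · rw [realize_le]
    simp
  · rw [Dvd']
    refine exists_congr fun z => ?_
    rw [realize_add, realize_mul, realize_add, realize_codT]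
    simp
  · funext i
    rcases i with i | i <;> simp

end Pool.Interstr
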