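import Pool.Agent.Interstr.Basic

/-!
# First-order facts of true arithmetic: order, least elements, induction, collection
-/

open FirstOrder FirstOrder.Language FirstOrder.Ring

namespace Pool.Interstr



attribute [local instance] natNeg natRing

lemma nat_le_iff (a b : ℕ) : (∃ z, a + z = b) ↔ a ≤ b :=
  ⟨fun ⟨z, hz⟩ => by omega, fun h => ⟨b - a, by omega⟩⟩

lemma nat_lt_iff (a b : ℕ) : (∃ z, a + z + 1 = b) ↔ a < b :=
  ⟨fun ⟨z, hz⟩ => by omega, fun h => ⟨b - a - 1, by omega⟩⟩

section

variable {A : Type} [CommSemiring A] [Neg A] [CompatibleRing A]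

/-- The order of a model of arithmetic. -/
def Le (a b : A) : Prop := ∃ z, a + z = b

/-- The strict order of a model of arithmetic. -/
def Lt (a b : A) : Prop := ∃ z, a + z + 1 = b

lemma realize_le {α : Type*} (t s : Language.ring.Term α) (v : α → A) :
    (leF t s).Realize v ↔ Le (t.realize v) (s.realize v) := realize_leF t s v

lemma realize_lt {α : Type*} (t s : Language.ring.Term α) (v : α → A) :
    (ltF t s).Realize v ↔ Lt (t.realize v) (s.realize v) := realize_ltF t s v

omit [Neg A] [CompatibleRing A] in
lemma le_refl' (a : A) : Le a a := ⟨0, by simp⟩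

omit [Neg A] [CompatibleRing A] in
lemma le_trans' {a b c : A} (h1 : Le a b) (h2 : Le b c) : Le a c := by
  obtain ⟨z, rfl⟩ := h1
  obtain ⟨w, rfl⟩ := h2
  exact ⟨z + w, by ring⟩

omit [Neg A] [CompatibleRing A] in
lemma le_add_right' (a b : A) : Le a (a + b) := ⟨b, rfl⟩

lemma eq_of_nat (hA : TrueArith A) {α : Type} [Finite α] (t s : Language.ring.Term α)
    (h : ∀ v : α → ℕ, t.realize v = s.realize v) (v : α → A) :
    t.realize v = s.realize v := by
  have := transfer hA (t.equal s) (fun v => by rw [Formula.realize_equal]; exact h v) v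
  rwa [Formula.realize_equal] at this

lemma lt_or_le (hA : TrueArith A) (a b : A) : Lt a b ∨ Le b a := by
  have := transfer hA (ltF (Term.var (0 : Fin 2)) (Term.var 1) ⊔ leF (Term.var 1) (Term.var 0))
    (fun v => by
      rw [Formula.realize_sup, realize_ltF, realize_leF, nat_le_iff, nat_lt_iff]
      simp only [Term.realize_var]
      omega) ![a, b]
  rw [Formula.realize_sup, realize_lt, realize_le] at this
  simpa using this

lemma lt_asymm' (hA : TrueArith A) {a b : A} (h1 : Lt a b) (h2 : Le b a) : False := by
  have := transfer hA ((ltF (Term.var (0 : Fin 2)) (Term.var 1) ⊓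
    leF (Term.var 1) (Term.var 0)).not)
    (fun v => by
      rw [Formula.realize_not, Formula.realize_inf, realize_ltF, realize_leF, nat_le_iff,
        nat_lt_iff]
      simp only [Term.realize_var]
      omega) ![a, b]
  rw [Formula.realize_not, Formula.realize_inf, realize_lt, realize_le] at this
  exact this ⟨by simpa using h1, by simpa using h2⟩

lemma le_antisymm' (hA : TrueArith A) {a b : A} (h1 : Le a b) (h2 : Le b a) : a = b := by
  have := transfer hA ((leF (Term.var (0 : Fin 2)) (Term.var 1) ⊓
    leF (Term.var 1) (Term.var 0)).imp ((Term.var 0).equal (Term.var 1)))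
    (fun v => by
      rw [Formula.realize_imp, Formula.realize_inf, realize_leF, realize_leF, nat_le_iff,
        nat_le_iff, Formula.realize_equal]
      simp only [Term.realize_var]
      omega) ![a, b]
  rw [Formula.realize_imp, Formula.realize_inf, realize_le, realize_le,
    Formula.realize_equal] at this
  simpa using this ⟨by simpa using h1, by simpa using h2⟩

lemma elim_map {α B : Type*} (v : α → B) (x z : B) :
    (Sum.elim (Sum.elim v fun _ : Fin 1 => x) (fun _ : Fin 1 => z)) ∘
      (Sum.map Sum.inl id : α ⊕ Fin 1 → (α ⊕ Fin 1) ⊕ Fin 1) = Sum.elim v (fun _ => z) := by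
  funext i
  rcases i with i | i <;> simp

/-- The formula saying that `x` is the least element satisfying `φ`. -/
noncomputable def leastF {α : Type} (φ : Language.ring.Formula (α ⊕ Fin 1)) :
    Language.ring.Formula (α ⊕ Fin 1) :=
  φ ⊓ ((φ.relabel (Sum.map Sum.inl id) :
        Language.ring.Formula ((α ⊕ Fin 1) ⊕ Fin 1)).imp
          (leF (Term.var (Sum.inl (Sum.inr 0))) (Term.var (Sum.inr 0)))).iAlls (Fin 1)

lemma realize_leastF {B : Type} [CommSemiring B] [Neg B] [CompatibleRing B] {α : Type}
    (φ : Language.ring.Formula (α ⊕ Fin 1)) (v : α → B) (x : B) :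
    (leastF φ).Realize (Sum.elim v (fun _ => x)) ↔
      φ.Realize (Sum.elim v (fun _ => x)) ∧
        ∀ z : B, φ.Realize (Sum.elim v (fun _ => z)) → Le x z := by
  rw [leastF, Formula.realize_inf, Formula.realize_iAlls, forall_fin_one]
  refine and_congr Iff.rfl (forall_congr' fun z => ?_)
  rw [Formula.realize_imp, Formula.realize_relabel, realize_le]
  refine imp_congr (iff_of_eq (congrArg _ (elim_map v x z))) ?_
  simp

/-- For every formula and parameters, a nonempty definable set has a least element. -/
lemma exists_least (hA : TrueArith A) {α : Type} [Finite α]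
    (φ : Language.ring.Formula (α ⊕ Fin 1)) (v : α → A)
    (h : ∃ x : A, φ.Realize (Sum.elim v (fun _ => x))) :
    ∃ x : A, φ.Realize (Sum.elim v (fun _ => x)) ∧
      ∀ z : A, φ.Realize (Sum.elim v (fun _ => z)) → Le x z := by
  have key := transfer hA
    ((φ.iExs (Fin 1)).imp ((leastF φ).iExs (Fin 1)))
    (fun v => by
      rw [Formula.realize_imp, Formula.realize_iExs, Formula.realize_iExs]
      intro h
      rw [exists_fin_one] at h ⊢
      simp only [realize_leastF]
      classical
      refine ⟨Nat.find h, Nat.find_spec h, fun z hz => ?_⟩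
      rw [Le, nat_le_iff]
      exact Nat.find_min' h hz) v
  rw [Formula.realize_imp, Formula.realize_iExs, Formula.realize_iExs, exists_fin_one,
    exists_fin_one] at key
  simp only [realize_leastF] at key
  exact key h

lemma realize_subst_of_eq {B : Type} [Language.ring.Structure B] {α β : Type*}
    (φ : Language.ring.Formula α) (tf : α → Language.ring.Term β) (v : β → B) (w : α → B)
    (h : ∀ a, (tf a).realize v = w a) :
    Formula.Realize (BoundedFormula.subst φ tf : Language.ring.Formula β) v ↔ φ.Realize w := by
  rw [Formula.Realize, BoundedFormula.realize_subst, Formula.Realize]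
  rw [funext h]

lemma subst_zero {B : Type} [CommSemiring B] [Neg B] [CompatibleRing B] {α : Type*}
    (φ : Language.ring.Formula (α ⊕ Fin 1)) (v : α → B) :
    Formula.Realize (BoundedFormula.subst φ (Sum.elim Term.var (fun _ => 0)) :
      Language.ring.Formula α) v ↔ φ.Realize (Sum.elim v (fun _ => 0)) := by
  apply realize_subst_of_eq
  rintro (a | a) <;> simp

lemma subst_succ {B : Type} [CommSemiring B] [Neg B] [CompatibleRing B] {α : Type*}
    (φ : Language.ring.Formula (α ⊕ Fin 1)) (v : α → B) (z : B) :
    Formula.Realize (BoundedFormula.subst φ (Sum.elim (fun a => Term.var (Sum.inl a))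
      (fun _ => Term.var (Sum.inr (0 : Fin 1)) + 1)) :
      Language.ring.Formula (α ⊕ Fin 1)) (Sum.elim v (fun _ => z))
        ↔ φ.Realize (Sum.elim v (fun _ => z + 1)) := by
  apply realize_subst_of_eq
  rintro (a | a) <;> simp

/-- Induction for definable sets with parameters. -/
lemma induction (hA : TrueArith A) (s : Set (Fin 1 → A))
    (hs : (Set.univ : Set A).Definable Language.ring s)
    (h0 : (fun _ : Fin 1 => (0 : A)) ∈ s)
    (h1 : ∀ x : A, (fun _ : Fin 1 => x) ∈ s → (fun _ : Fin 1 => x + 1) ∈ s) :
    ∀ x : A, (fun _ : Fin 1 => x) ∈ s := by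
  rw [Set.definable_iff_finitely_definable] at hs
  obtain ⟨A0, -, hs⟩ := hs
  rw [Set.definable_iff_exists_formula_sum] at hs
  obtain ⟨φ, hφ⟩ := hs
  have key := transfer hA
    ((BoundedFormula.subst φ (Sum.elim Term.var (fun _ => 0)) :
        Language.ring.Formula A0).imp
      (((φ.imp (BoundedFormula.subst φ (Sum.elim (fun a => Term.var (Sum.inl a))
        (fun _ => Term.var (Sum.inr (0 : Fin 1)) + 1)))).iAlls (Fin 1)).imp
        (φ.iAlls (Fin 1))))
    (fun v => by
      rw [Formula.realize_imp, Formula.realize_imp, Formula.realize_iAlls, Formula.realize_iAlls]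
      intro h0 h1
      simp only [forall_fin_one, Formula.realize_imp] at h1 ⊢
      intro z
      rw [subst_zero] at h0
      induction z with
      | zero => exact h0
      | succ z ih => exact (subst_succ φ v z).mp (h1 z ih)) (fun a => (a : A))
  rw [Formula.realize_imp, Formula.realize_imp, Formula.realize_iAlls,
    Formula.realize_iAlls] at key
  simp only [forall_fin_one, Formula.realize_imp] at key
  rw [hφ] at h0 h1 ⊢
  intro x
  exact key ((subst_zero φ _).mpr h0) (fun z hz => (subst_succ φ _ z).mpr (h1 z hz)) x

end

end Pool.Interstr
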