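import Pool.Agent.Interstr.Coding

/-!
# The pentagon is not an interstructure lattice with the prescribed ranks
-/

open FirstOrder FirstOrder.Language FirstOrder.Ring

namespace Pool.Interstr

attribute [local instance] natNeg natRing

section Definable

variable {N : Type} [Language.ring.Structure N]

/-- Sets given by a formula, with variables replaced by parameters or by the variables. -/
lemma definable_of_formula (A : Set N) {γ α : Type} (Ψ : Language.ring.Formula γ)
    (g : γ → A ⊕ α) :
    A.Definable Language.ring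
      {v : α → N | Ψ.Realize (fun i => Sum.elim (fun a : A => (a : N)) v (g i))} := by
  rw [Set.definable_iff_exists_formula_sum]
  refine ⟨Ψ.relabel g, ?_⟩
  ext v
  rw [Set.mem_ofPred_eq, Set.mem_ofPred_eq, Formula.realize_relabel]
  rfl

lemma definable_singleton_iff (A : Set N) (y : N) :
    A.Definable₁ Language.ring {y} ↔ ∃ (A0 : Finset N) (φ : Language.ring.Formula (A0 ⊕ Fin 1)),
      (A0 : Set N) ⊆ A ∧ ∀ x : N,
        φ.Realize (Sum.elim (fun a : A0 => (a : N)) (fun _ => x)) ↔ x = y := by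
  rw [Set.Definable₁, Set.definable_iff_finitely_definable]
  constructor
  · rintro ⟨A0, hA0, h⟩
    rw [Set.definable_iff_exists_formula_sum] at h
    obtain ⟨φ, hφ⟩ := h
    refine ⟨A0, φ, hA0, fun x => ?_⟩
    have := Set.ext_iff.mp hφ (fun _ => x)
    rw [Set.mem_ofPred_eq, Set.mem_ofPred_eq, Set.mem_singleton_iff] at this
    exact this.symm
  · rintro ⟨A0, φ, hA0, h⟩
    refine ⟨A0, hA0, ?_⟩
    rw [Set.definable_iff_exists_formula_sum]
    refine ⟨φ, ?_⟩
    ext x
    rw [Set.mem_ofPred_eq, Set.mem_ofPred_eq, Set.mem_singleton_iff, ← h (x 0)]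
    have : (fun _ => x 0) = x := by
      funext i
      rw [Subsingleton.elim i 0]
    rw [this]
    rfl

/-- A formula description of the definable sets. -/
lemma exists_formula_of_definable (A : Set N) (D : Set N) (h : A.Definable₁ Language.ring D) :
    ∃ (A0 : Finset N) (φ : Language.ring.Formula (A0 ⊕ Fin 1)),
      (A0 : Set N) ⊆ A ∧ ∀ x : N,
        φ.Realize (Sum.elim (fun a : A0 => (a : N)) (fun _ => x)) ↔ x ∈ D := by
  rw [Set.Definable₁, Set.definable_iff_finitely_definable] at h
  obtain ⟨A0, hA0, h⟩ := h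
  rw [Set.definable_iff_exists_formula_sum] at h
  obtain ⟨φ, hφ⟩ := h
  refine ⟨A0, φ, hA0, fun x => ?_⟩
  have := Set.ext_iff.mp hφ (fun _ => x)
  rw [Set.mem_ofPred_eq, Set.mem_ofPred_eq] at this
  exact this.symm

/-- The definable closure. -/
def dclo (A : Set N) : Set N := {z | A.Definable₁ Language.ring {z}}

lemma subset_dclo (A : Set N) : A ⊆ dclo A := by
  intro a ha
  rw [dclo, Set.mem_ofPred_eq]
  exact Set.Definable.singleton_of_mem (L := Language.ring) ha

lemma definable_trans (A : Set N) (D : Set N) (h : (dclo A).Definable₁ Language.ring D) :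
    A.Definable₁ Language.ring D := by
  obtain ⟨A0, φ, hA0, hφ⟩ := exists_formula_of_definable _ D h
  have h1 : A.Definable Language.ring {y : Fin 1 ⊕ A0 → N | ∀ a : A0, y (Sum.inr a) = a} := by
    rw [Set.ofPred_forall]
    refine Set.definable_iInter_of_finite fun a => ?_
    have h2 : A.Definable₁ Language.ring {(a : N)} := hA0 a.2
    exact h2.preimage_comp (fun _ => Sum.inr a)
  have h2 : A.Definable Language.ring {y : Fin 1 ⊕ A0 → N | φ.Realize (y ∘ Sum.swap)} :=
    definable_of_formula A φ (fun i => Sum.inr (Sum.swap i))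
  have h3 := Set.Definable.exists_of_finite (h1.inter h2)
  rw [Set.Definable₁]
  have h4 : {x : Fin 1 → N | x 0 ∈ D} = {v : Fin 1 → N | ∃ u : A0 → N, Sum.elim v u ∈
      {y : Fin 1 ⊕ A0 → N | ∀ a : A0, y (Sum.inr a) = a} ∩
      {y : Fin 1 ⊕ A0 → N | φ.Realize (y ∘ Sum.swap)}} := by
    ext x
    rw [Set.mem_ofPred_eq, Set.mem_ofPred_eq, ← hφ (x 0)]
    have hx : (fun _ => x 0) = x := by
      funext i
      rw [Subsingleton.elim i 0]
    rw [hx]
    constructor
    · intro h
      refine ⟨fun a => a, fun a => by simp, ?_⟩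
      rw [Set.mem_ofPred_eq]
      have : (Sum.elim x fun a : A0 => (a : N)) ∘ Sum.swap
          = Sum.elim (fun a : A0 => (a : N)) x := by
        funext i
        rcases i with i | i <;> simp
      rw [this]
      exact h
    · rintro ⟨u, hu1, hu2⟩
      rw [Set.mem_ofPred_eq] at hu1 hu2
      have : (Sum.elim x u) ∘ Sum.swap
          = Sum.elim (fun a : A0 => (a : N)) x := by
        funext i
        rcases i with i | i
        · have := hu1 i
          simpa using this
        · simp
      rw [this] at hu2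
      exact hu2
  rw [h4]
  exact h3

end Definable

section Models

variable {N : Type} [CommSemiring N] [Neg N] [CompatibleRing N]

lemma dclo_meets (hN : TrueArith N) (A : Set N) : Language.ring.MeetsDefinable (dclo A) := by
  intro D hD h
  obtain ⟨A0, φ, hA0, hφ⟩ := exists_formula_of_definable A D (definable_trans A D h)
  obtain ⟨x0, hx0⟩ := hD
  obtain ⟨x, hx, hx'⟩ := exists_least hN φ (fun a => (a : N)) ⟨x0, (hφ x0).mpr hx0⟩
  refine ⟨x, (hφ x).mp hx, ?_⟩
  rw [dclo, Set.mem_ofPred_eq, definable_singleton_iff]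
  refine ⟨A0, leastF φ, hA0, fun z => ?_⟩
  rw [realize_leastF]
  constructor
  · rintro ⟨h1, h2⟩
    exact le_antisymm' hN (h2 x hx) (hx' z h1)
  · rintro rfl
    exact ⟨hx, hx'⟩

variable {M : Type} [CommSemiring M] [Neg M] [CompatibleRing M]

lemma f_add (f : M ↪ₑ[Language.ring] N) (a b : M) : f (a + b) = f a + f b := by
  have h := f.map_fun addFunc ![a, b]
  rw [CompatibleRing.funMap_add, CompatibleRing.funMap_add] at h
  simpa using h

lemma trueArith_of_embedding (hM : TrueArith M) (f : M ↪ₑ[Language.ring] N) : TrueArith N :=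
  fun σ hσ => (f.map_sentence σ).mp (hM σ hσ)

lemma f_le (f : M ↪ₑ[Language.ring] N) {a b : M} (h : Le a b) : Le (f a) (f b) := by
  obtain ⟨z, rfl⟩ := h
  exact ⟨f z, (f_add f a z).symm⟩

/-- Finitely many elements bounded by elements of `M` have a common bound in `M`. -/
lemma common_bound (f : M ↪ₑ[Language.ring] N) {κ : Type} [Finite κ] (w : κ → N)
    (h : ∀ i, ∃ m : M, Le (w i) (f m)) : ∃ m : M, ∀ i, Le (w i) (f m) := by
  classical
  have := Fintype.ofFinite κ
  choose g hg using h
  refine ⟨∑ i, g i, fun i => le_trans' (hg i) (f_le f ?_)⟩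
  rw [← Finset.add_sum_erase _ _ (Finset.mem_univ i)]
  exact le_add_right' _ _

/-- The cofinal closure of `M` in `N`. -/
def cofc (f : M ↪ₑ[Language.ring] N) : Set N := {z | ∃ m : M, Le z (f m)}

lemma cofc_meets (hM : TrueArith M) (f : M ↪ₑ[Language.ring] N) :
    Language.ring.MeetsDefinable (cofc f) := by
  intro D hD h
  obtain ⟨A0, φ, hA0, hφ⟩ := exists_formula_of_definable _ D h
  obtain ⟨x0, hx0⟩ := hD
  obtain ⟨m, hm⟩ := common_bound f (fun a : A0 => (a : N)) (fun a => hA0 a.2)
  obtain ⟨B, hB⟩ := transfer_ex hM (collF φ) (fun v => by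
    obtain ⟨B, hB⟩ := nat_coll φ (v 0)
    refine ⟨fun _ => B, ?_⟩
    have hv : v = fun _ => v 0 := by
      funext i
      rw [Subsingleton.elim i 0]
    rw [hv, realize_collF]
    intro w hw hx
    obtain ⟨x, hx1, hx2⟩ := hB w (fun i => (nat_le_iff _ _).mp (hw i)) hx
    exact ⟨x, (nat_le_iff _ _).mpr hx1, hx2⟩) (fun _ => m)
  rw [← f.map_formula] at hB
  have hB' : (collF φ).Realize (Sum.elim (fun _ => f m) (fun _ => f (B 0))) := by
    have he : (f ∘ Sum.elim (fun _ => m) B : Fin 1 ⊕ Fin 1 → N)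
        = Sum.elim (fun _ => f m) (fun _ => f (B 0)) := by
      funext i
      rcases i with i | i
      · simp
      · simp [Subsingleton.elim i 0]
    rw [← he]
    exact hB
  rw [realize_collF] at hB'
  obtain ⟨x, hx1, hx2⟩ := hB' (fun a => (a : N)) hm ⟨x0, (hφ x0).mpr hx0⟩
  exact ⟨x, (hφ x).mp hx2, B 0, hx1⟩

/-- The uniform coding formula: for all `u` there is `s` with `codeF`. -/
noncomputable def uniF {π κ : Type} [Finite π] [Fintype κ] (φ : Language.ring.Formula (π ⊕ κ)) :
    Language.ring.Formula (Fin 1 ⊕ Fin 2) :=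
  Formula.iAlls π (Formula.iExs (Fin 1)
    ((codeF φ).relabel (Sum.elim (fun i => Sum.inl (Sum.inr i))
      ![Sum.inl (Sum.inl (Sum.inl 0)), Sum.inl (Sum.inl (Sum.inr 0)),
        Sum.inl (Sum.inl (Sum.inr 1)), Sum.inr 0]) :
      Language.ring.Formula (((Fin 1 ⊕ Fin 2) ⊕ π) ⊕ Fin 1)))

lemma realize_uniF {A : Type} [CommSemiring A] [Neg A] [CompatibleRing A] {π κ : Type} [Finite π]
    [Fintype κ] (φ : Language.ring.Formula (π ⊕ κ)) (m q B : A) :
    (uniF φ).Realize (Sum.elim (fun _ => m) ![q, B]) ↔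
      ∀ u : π → A, ∃ s, (codeF φ).Realize (Sum.elim u ![m, q, B, s]) := by
  rw [uniF, Formula.realize_iAlls]
  refine forall_congr' fun u => ?_
  rw [Formula.realize_iExs, exists_fin_one]
  refine exists_congr fun s => ?_
  rw [Formula.realize_relabel]
  refine iff_of_eq (congrArg _ ?_)
  funext i
  rcases i with i | i
  · simp
  · fin_cases i <;> simp

lemma exists_uniform (hM : TrueArith M) {π κ : Type} [Finite π]
    [Fintype κ] (φ : Language.ring.Formula (π ⊕ κ)) (m : M) :
    ∃ q B : M, (uniF φ).Realize (Sum.elim (fun _ => m) ![q, B]) := by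
  obtain ⟨w, hw⟩ := transfer_ex hM (uniF φ) (fun v => by
    obtain ⟨q, B, h⟩ := nat_code (κ := κ) (v 0)
    refine ⟨![q, B], ?_⟩
    have hv : v = fun _ => v 0 := by
      funext i
      rw [Subsingleton.elim i 0]
    rw [hv, realize_uniF]
    intro u
    obtain ⟨s, hs1, hs2⟩ := h (fun w => φ.Realize (Sum.elim u w))
    refine ⟨s, ?_⟩
    rw [realize_codeF]
    refine ⟨(nat_le_iff _ _).mpr hs1, fun w hw => ?_⟩
    rw [← hs2 w (fun i => (nat_le_iff _ _).mp (hw i))]
    constructor
    · rintro ⟨z, hz⟩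
      exact ⟨z, hz.symm⟩
    · rintro ⟨z, hz⟩
      exact ⟨z, hz.symm⟩) (fun _ => m)
  refine ⟨w 0, w 1, ?_⟩
  have : ![w 0, w 1] = w := by
    funext i
    fin_cases i <;> rfl
  rw [this]
  exact hw

/-- The formula defining the value: `y ≤ m` and `(1 + (cod + 1) q) ∣ s`, variables:
`inl none` for `y`, `inl (some i)` for the parameters, `inr 0, 1, 2` for `m, q, s`. -/
noncomputable def valF {ι : Type} [Fintype ι] : Language.ring.Formula (Option ι ⊕ Fin 3) :=
  leF (Term.var (Sum.inl none)) (Term.var (Sum.inr 0)) ⊓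
    dvdF (1 + (codT (fun i : Option ι => Term.var (Sum.inl i)) + 1) * Term.var (Sum.inr 1))
      (Term.var (Sum.inr 2))

lemma realize_valF {A : Type} [CommSemiring A] [Neg A] [CompatibleRing A] {ι : Type} [Fintype ι]
    (v : Option ι ⊕ Fin 3 → A) : (valF (ι := ι)).Realize v ↔
      Le (v (Sum.inl none)) (v (Sum.inr 0)) ∧
        Dvd' (1 + (cod (fun i => v (Sum.inl i)) + 1) * v (Sum.inr 1)) (v (Sum.inr 2)) := by
  rw [valF, Formula.realize_inf, realize_le, realize_dvdF, Dvd', realize_add, realize_mul,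
    realize_add, realize_codT]
  simp

/-- **Main argument.** If `M ≤ a ≤ b`, `M` is cofinal in `b`, `N` is an end extension of `b`,
`b ∩ c = M` and `N` is generated by `a` and `c`, then `a = b`. -/
theorem pentagon (hM : TrueArith M) (f : M ↪ₑ[Language.ring] N)
    (a b c : Language.ring.ElementarySubstructure N)
    (ha : Set.range f ⊆ (a : Set N)) (hb : Set.range f ⊆ (b : Set N))
    (hc : Set.range f ⊆ (c : Set N)) (hab : a ≤ b)
    (hcof : ∀ y ∈ b, ∃ m : M, Le y (f m))
    (hend : ∀ x ∈ b, ∀ y : N, y ∉ b → Lt x y)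
    (hbc : ∀ x, x ∈ b → x ∈ c → x ∈ Set.range f)
    (htop : ∀ K : Language.ring.ElementarySubstructure N, a ≤ K → c ≤ K → ∀ y, y ∈ K) :
    b ≤ a := by
  classical
  have hN := trueArith_of_embedding hM f
  intro y hy
  -- `y` is definable over `c ∪ a`
  let P : Set N := (c : Set N) ∪ (a : Set N)
  let K := (dclo_meets hN P).toElementarySubstructure
  have hKmem : ∀ z, z ∈ K ↔ z ∈ dclo P := by
    intro z
    have := (dclo_meets hN P).closure_eq_self
    rw [← SetLike.mem_coe]
    change z ∈ (Substructure.closure Language.ring (dclo P) : Set N) ↔ _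
    exact Set.ext_iff.mp this z
  have hyK : y ∈ dclo P := by
    rw [← hKmem]
    apply htop
    · intro z hz
      rw [hKmem]
      exact subset_dclo P (Or.inr hz)
    · intro z hz
      rw [hKmem]
      exact subset_dclo P (Or.inl hz)
  rw [dclo, Set.mem_ofPred_eq, definable_singleton_iff] at hyK
  obtain ⟨A0, φ0, hA0, hφ0⟩ := hyK
  let g : A0 ⊕ Fin 1 → A0 ⊕ Option A0 :=
    Sum.elim (fun i => if (i : N) ∈ c then Sum.inl i else Sum.inr (some i))
      (fun _ => Sum.inr none)
  let φ : Language.ring.Formula (A0 ⊕ Option A0) := φ0.relabel g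
  let u : A0 → N := fun i => if (i : N) ∈ c then i else 0
  let w0 : N → Option A0 → N := fun z o => o.elim z (fun i => if (i : N) ∈ c then 0 else i)
  have hφ : ∀ z, φ.Realize (Sum.elim u (w0 z)) ↔ z = y := by
    intro z
    rw [← hφ0 z, Formula.realize_relabel]
    refine iff_of_eq (congrArg _ ?_)
    funext i
    rcases i with i | i
    · by_cases hi : (i : N) ∈ c
      · simp [g, u, hi]
      · simp [g, w0, hi]
    · simp [g, w0]
  have hzero : ∀ K : Language.ring.ElementarySubstructure N, (0 : N) ∈ K := by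
    intro K
    have := K.toSubstructure.constants_mem (zeroFunc : Language.ring.Constants)
    have h2 : ((zeroFunc : Language.ring.Constants) : N) = 0 :=
      CompatibleRing.funMap_zero _
    rw [h2] at this
    exact this
  have hw0a : ∀ z i, w0 z (some i) ∈ a := by
    intro z i
    simp only [w0, Option.elim_some]
    split_ifs with hi
    · exact hzero a
    · rcases hA0 i.2 with h | h
      · exact absurd h hi
      · exact h
  obtain ⟨m, hm⟩ := common_bound f (w0 y) (by
    intro i
    rcases i with _ | i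
    · exact hcof y hy
    · exact hcof _ (hab (hw0a y i)))
  obtain ⟨q, B, hqB⟩ := exists_uniform hM φ m
  rw [← f.map_formula] at hqB
  have hqB' : (uniF φ).Realize (Sum.elim (fun _ => f m) ![f q, f B]) := by
    have he : (f ∘ Sum.elim (fun _ => m) ![q, B] : Fin 1 ⊕ Fin 2 → N)
        = Sum.elim (fun _ => f m) ![f q, f B] := by
      funext i
      rcases i with i | i
      · simp
      · fin_cases i <;> simp
    rw [← he]
    exact hqB
  rw [realize_uniF] at hqB'
  obtain ⟨s0, hs0⟩ := hqB' u
  -- the code can be chosen in `c`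
  obtain ⟨s, hs, hsc⟩ : ({s : N | (codeF φ).Realize (Sum.elim u ![f m, f q, f B, s])} ∩
      (c : Set N)).Nonempty := by
    refine c.meetsDefinable _ ⟨s0, hs0⟩ ?_
    have huc : ∀ i, u i ∈ (c : Set N) := by
      intro i
      simp only [u]
      split_ifs with hi
      · exact hi
      · exact hzero c
    have h := definable_of_formula (α := Fin 1) (c : Set N) (codeF φ)
      (Sum.elim (fun i => Sum.inl ⟨u i, huc i⟩)
        ![Sum.inl ⟨f m, hc ⟨m, rfl⟩⟩, Sum.inl ⟨f q, hc ⟨q, rfl⟩⟩, Sum.inl ⟨f B, hc ⟨B, rfl⟩⟩,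
          Sum.inr 0])
    rw [Set.Definable₁]
    have he : {x : Fin 1 → N | x 0 ∈ {s : N | (codeF φ).Realize
        (Sum.elim u ![f m, f q, f B, s])}} = {v : Fin 1 → N | (codeF φ).Realize
        (fun i => Sum.elim (fun a : (c : Set N) => (a : N)) v ((Sum.elim (fun i => Sum.inl
        ⟨u i, huc i⟩) ![Sum.inl ⟨f m, hc ⟨m, rfl⟩⟩, Sum.inl ⟨f q, hc ⟨q, rfl⟩⟩,
          Sum.inl ⟨f B, hc ⟨B, rfl⟩⟩, Sum.inr 0] : A0 ⊕ Fin 4 → (c : Set N) ⊕ Fin 1) i))} := by
      ext v
      rw [Set.mem_ofPred_eq, Set.mem_ofPred_eq, Set.mem_ofPred_eq]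
      refine iff_of_eq (congrArg _ ?_)
      funext i
      rcases i with i | i
      · simp
      · fin_cases i <;> simp
    rw [he]
    exact h
  rw [Set.mem_ofPred_eq, realize_codeF] at hs
  obtain ⟨hs1, hs2⟩ := hs
  have hs1' : Le s (f B) := by simpa using hs1
  have hsb : s ∈ b := by
    by_contra hsb
    exact lt_asymm' hN (hend (f B) (hb ⟨B, rfl⟩) s hsb) hs1'
  obtain ⟨s', hs'⟩ := hbc s hsb hsc
  -- `y` is definable over `a`
  have hya : (a : Set N).Definable₁ Language.ring {y} := by
    have h := definable_of_formula (α := Fin 1) (a : Set N) (valF (ι := A0))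
      (Sum.elim (fun o => o.elim (Sum.inr 0) (fun i => Sum.inl ⟨w0 y (some i), hw0a y i⟩))
        ![Sum.inl ⟨f m, ha ⟨m, rfl⟩⟩, Sum.inl ⟨f q, ha ⟨q, rfl⟩⟩,
          Sum.inl ⟨f s', ha ⟨s', rfl⟩⟩])
    rw [Set.Definable₁]
    have he : {x : Fin 1 → N | x 0 ∈ ({y} : Set N)} = {v : Fin 1 → N | (valF (ι := A0)).Realize
        (fun i => Sum.elim (fun a : (a : Set N) => (a : N)) v ((Sum.elim (fun o => o.elim
        (Sum.inr 0) (fun i => Sum.inl ⟨w0 y (some i), hw0a y i⟩))
        ![Sum.inl ⟨f m, ha ⟨m, rfl⟩⟩, Sum.inl ⟨f q, ha ⟨q, rfl⟩⟩,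
          Sum.inl ⟨f s', ha ⟨s', rfl⟩⟩] : Option A0 ⊕ Fin 3 → (a : Set N) ⊕ Fin 1) i))} := by
      ext v
      rw [Set.mem_ofPred_eq, Set.mem_ofPred_eq, Set.mem_singleton_iff, realize_valF]
      have hcod : (fun i : Option A0 => Sum.elim (fun a : (a : Set N) => (a : N)) v
          ((Sum.elim (fun o => o.elim
        (Sum.inr 0) (fun i => Sum.inl ⟨w0 y (some i), hw0a y i⟩))
        ![Sum.inl ⟨f m, ha ⟨m, rfl⟩⟩, Sum.inl ⟨f q, ha ⟨q, rfl⟩⟩,
          Sum.inl ⟨f s', ha ⟨s', rfl⟩⟩] : Option A0 ⊕ Fin 3 → (a : Set N) ⊕ Fin 1)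
            (Sum.inl i))) = w0 (v 0) := by
        funext i
        rcases i with _ | i
        · simp [w0]
        · simp [w0]
      rw [hcod]
      have hb0 : ∀ z, Le z (f m) → ∀ i, Le (w0 z i) (f m) := by
        intro z hz i
        rcases i with _ | i
        · exact hz
        · exact hm (some i)
      have hkey : ∀ z, Le z (f m) → (Dvd' (1 + (cod (w0 z) + 1) * f q) s ↔ z = y) := by
        intro z hz
        rw [← hφ z]
        have := hs2 (w0 z) (by simpa using hb0 z hz)
        simpa using this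
      simp only [Sum.elim_inl, Sum.elim_inr, Option.elim_none]
      constructor
      · intro hv
        rw [hv]
        have hyn : Le y (f m) := hm none
        refine ⟨?_, ?_⟩
        · simpa using hyn
        · have := (hkey y hyn).mpr rfl
          simpa [hs'] using this
      · rintro ⟨h1, h2⟩
        have h1' : Le (v 0) (f m) := by simpa using h1
        apply (hkey (v 0) h1').mp
        simpa [hs'] using h2
    rw [he]
    exact h
  obtain ⟨z, hz, hza⟩ := a.meetsDefinable {y} (Set.singleton_nonempty y) hya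
  rw [Set.mem_singleton_iff] at hz
  rw [← hz]
  exact hza

end Models

end Pool.Interstr
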